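import Mathlib

set_option autoImplicit false

open Finset Filter Topology

/-!
# No disconnected graph has the limit property
-/

namespace Pool.Agent.Results.MP_66c21b_co.NoDisconnected

/-- `G` has no induced subgraph isomorphic to `H`. -/
def Free {W V : Type} (H : SimpleGraph W) (G : SimpleGraph V) : Prop := IsEmpty (H ↪g G)

/-- The labelled model: the proportion of connected graphs among the graphs on `{0,…,n-1}` with no
induced subgraph isomorphic to `H`. -/
noncomputable def labelledProb {W : Type} (H : SimpleGraph W) (n : ℕ) : ℝ :=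
  (Nat.card {G : SimpleGraph (Fin n) // Free H G ∧ G.Connected} : ℝ) /
    Nat.card {G : SimpleGraph (Fin n) // Free H G}

/-- Isomorphism of graphs on `{0,…,n-1}`. -/
def isoSetoid (n : ℕ) : Setoid (SimpleGraph (Fin n)) where
  r G G' := Nonempty (G ≃g G')
  iseqv := ⟨fun _ => ⟨.refl⟩, fun ⟨e⟩ => ⟨e.symm⟩, fun ⟨e⟩ ⟨f⟩ => ⟨f.comp e⟩⟩

/-- Isomorphism classes of graphs with `n` vertices. -/
def IsoClass (n : ℕ) : Type := Quotient (isoSetoid n)

/-- The isomorphism class of a graph. -/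
def cls {n : ℕ} (G : SimpleGraph (Fin n)) : IsoClass n := Quotient.mk (isoSetoid n) G

/-- The unlabelled model: the proportion of classes of connected graphs among the isomorphism
classes of graphs with `n` vertices and no induced subgraph isomorphic to `H`. -/
noncomputable def unlabelledProb {W : Type} (H : SimpleGraph W) (n : ℕ) : ℝ :=
  (Nat.card {c : IsoClass n // ∃ G, cls G = c ∧ Free H G ∧ G.Connected} : ℝ) /
    Nat.card {c : IsoClass n // ∃ G, cls G = c ∧ Free H G}

/-- A sequence converges to a limit strictly between `0` and `1`. -/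
def LimitProperty (p : ℕ → ℝ) : Prop := ∃ L : ℝ, 0 < L ∧ L < 1 ∧ Tendsto p atTop (𝓝 L)

/-! ### Analytic part -/

lemma sum_inv_sq (m : ℕ) : ∑ k ∈ Icc 1 m, (1 : ℝ) / (k : ℝ) ^ 2 ≤ 2 - 2 / (m + 1) := by
  induction m with
  | zero => simp
  | succ m ih =>
    rw [Finset.sum_Icc_succ_top (by omega)]
    have h1 : (0 : ℝ) < (m : ℝ) + 1 := by positivity
    have h2 : (0 : ℝ) < (m : ℝ) + 2 := by positivity
    have h3 : (1 : ℝ) / ((m + 1 : ℕ) : ℝ) ^ 2 ≤ 2 / ((m : ℝ) + 1) - 2 / (((m + 1 : ℕ) : ℝ) + 1) := by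
      push_cast
      rw [show (m : ℝ) + 1 + 1 = m + 2 by ring, div_sub_div _ _ h1.ne' h2.ne',
        div_le_div_iff₀ (by positivity) (by positivity)]
      nlinarith [h1, h2, Nat.cast_nonneg (α := ℝ) m]
    linarith

lemma growth (a : ℕ → ℝ) (ha : ∀ n, 0 ≤ a n) (δ : ℝ) (hδ : 0 < δ) (n0 : ℕ)
    (h : ∀ n ≥ n0, δ * a n ≤ ∑ k ∈ Icc 1 (n / 2), a k * a (n - k)) :
    ∃ B : ℝ, 1 ≤ B ∧ ∀ n ≥ 1, a n ≤ δ / 8 * B ^ n / (n : ℝ) ^ 2 := by
  obtain ⟨B, hB1, hB⟩ : ∃ B : ℝ, 1 ≤ B ∧ ∀ k ∈ Finset.range n0, a k * (k : ℝ) ^ 2 / (δ / 8) ≤ B := by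
    refine ⟨1 + ∑ k ∈ Finset.range n0, a k * (k : ℝ) ^ 2 / (δ / 8), ?_, ?_⟩
    · have : 0 ≤ ∑ k ∈ Finset.range n0, a k * (k : ℝ) ^ 2 / (δ / 8) :=
        Finset.sum_nonneg fun k _ => by have := ha k; positivity
      linarith
    · intro k hk
      have : a k * (k : ℝ) ^ 2 / (δ / 8) ≤ ∑ k ∈ Finset.range n0, a k * (k : ℝ) ^ 2 / (δ / 8) :=
        Finset.single_le_sum (f := fun k => a k * (k : ℝ) ^ 2 / (δ / 8))
          (fun k _ => by have := ha k; positivity) hk
      linarith
  refine ⟨B, hB1, ?_⟩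
  intro n
  induction n using Nat.strong_induction_on with
  | _ n ih =>
    intro hn
    have hn' : (0 : ℝ) < n := by exact_mod_cast hn
    rcases lt_or_ge n n0 with hlt | hge
    · have h1 := hB n (Finset.mem_range.mpr hlt)
      have h2 : B ≤ B ^ n := le_self_pow₀ hB1 (by omega)
      rw [div_le_iff₀ (by positivity)] at h1
      rw [le_div_iff₀ (by positivity)]
      nlinarith
    · have h1 := h n hge
      have h2 : ∑ k ∈ Icc 1 (n / 2), a k * a (n - k) ≤
          ∑ k ∈ Icc 1 (n / 2), ((δ / 8) ^ 2 * B ^ n * (4 / (n : ℝ) ^ 2)) * (1 / (k : ℝ) ^ 2) := by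
        refine Finset.sum_le_sum fun k hk => ?_
        rw [Finset.mem_Icc] at hk
        have hk1 : 1 ≤ k := hk.1
        have hk2 : 2 * k ≤ n := by omega
        have h3 := ih k (by omega) hk1
        have h4 := ih (n - k) (by omega) (by omega)
        have hkpos : (0 : ℝ) < k := by exact_mod_cast hk1
        have hnk : ((n - k : ℕ) : ℝ) = n - k := by rw [Nat.cast_sub (by omega)]
        have hk2' : 2 * (k : ℝ) ≤ n := by exact_mod_cast hk2
        have hnk2 : (n : ℝ) / 2 ≤ ((n - k : ℕ) : ℝ) := by rw [hnk]; linarith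
        have h5 : a (n - k) ≤ δ / 8 * B ^ (n - k) * (4 / (n : ℝ) ^ 2) := by
          refine h4.trans ?_
          have hnkpos : (0 : ℝ) < ((n - k : ℕ) : ℝ) := by linarith
          rw [← mul_div_assoc (δ / 8 * B ^ (n-k)) 4]
          rw [div_le_div_iff₀ (by positivity) (by positivity)]
          have h6 : (n : ℝ) ^ 2 ≤ 4 * ((n - k : ℕ) : ℝ) ^ 2 := by nlinarith
          have h7 : 0 ≤ δ / 8 * B ^ (n - k) := by positivity
          nlinarith
        calc a k * a (n - k) ≤ (δ / 8 * B ^ k / (k : ℝ) ^ 2) * (δ / 8 * B ^ (n - k) * (4 / (n : ℝ) ^ 2)) :=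
              mul_le_mul h3 h5 (ha _) (by positivity)
          _ = ((δ / 8) ^ 2 * (B ^ k * B ^ (n - k)) * (4 / (n : ℝ) ^ 2)) * (1 / (k : ℝ) ^ 2) := by ring
          _ = _ := by rw [← pow_add, show k + (n - k) = n by omega]
      rw [← Finset.mul_sum] at h2
      have h3 := sum_inv_sq (n / 2)
      have h4 : ∑ k ∈ Icc 1 (n / 2), (1 : ℝ) / (k : ℝ) ^ 2 ≤ 2 := by
        have : (0 : ℝ) ≤ 2 / (((n / 2 : ℕ) : ℝ) + 1) := by positivity
        linarith
      have h5 : δ * a n ≤ ((δ / 8) ^ 2 * B ^ n * (4 / (n : ℝ) ^ 2)) * 2 :=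
        h1.trans (h2.trans (mul_le_mul_of_nonneg_left h4 (by positivity)))
      have h6 : ((δ / 8) ^ 2 * B ^ n * (4 / (n : ℝ) ^ 2)) * 2 = δ * (δ / 8 * B ^ n / (n : ℝ) ^ 2) := by
        ring
      rw [h6] at h5
      exact le_of_mul_le_mul_left h5 hδ

lemma growth_contra (a : ℕ → ℝ) (δ B : ℝ) (hδ1 : δ ≤ 1) (hB : 1 ≤ B)
    (h1 : ∀ n ≥ 1, a n ≤ δ / 8 * B ^ n / (n : ℝ) ^ 2)
    (h2 : ∀ m : ℕ, 1 ≤ m → (2 : ℝ) ^ (m ^ 2) / (2 * m).factorial ≤ a (2 * m)) : False := by
  have h3 : ∀ m : ℕ, 1 ≤ m → (2 : ℝ) ^ m ≤ (2 * m * B) ^ 2 := by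
    intro m hm
    have hm' : (1 : ℝ) ≤ m := by exact_mod_cast hm
    have h4 := (h2 m hm).trans (h1 (2 * m) (by omega))
    have h5 : δ / 8 * B ^ (2 * m) / ((2 * m : ℕ) : ℝ) ^ 2 ≤ B ^ (2 * m) := by
      rw [div_le_iff₀ (by positivity)]
      push_cast
      have h6 : (1 : ℝ) ≤ (2 * (m : ℝ)) ^ 2 := by nlinarith
      have h7 : 0 < B ^ (2 * m) := by positivity
      nlinarith
    have h6 : ((2 * m).factorial : ℝ) ≤ (2 * m) ^ (2 * m) := by
      have := Nat.factorial_le_pow (2 * m)
      calc ((2 * m).factorial : ℝ) ≤ (((2 * m) ^ (2 * m) : ℕ) : ℝ) := by exact_mod_cast this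
        _ = _ := by push_cast; ring
    have h7 : (2 : ℝ) ^ (m ^ 2) ≤ (2 * m * B) ^ (2 * m) := by
      have h8 := h4.trans h5
      rw [div_le_iff₀ (by exact_mod_cast Nat.factorial_pos _)] at h8
      calc (2 : ℝ) ^ (m ^ 2) ≤ B ^ (2 * m) * (2 * m).factorial := h8
        _ ≤ B ^ (2 * m) * (2 * m) ^ (2 * m) := mul_le_mul_of_nonneg_left h6 (by positivity)
        _ = _ := by rw [← mul_pow]; ring
    have h8 : ((2 : ℝ) ^ m) ^ m ≤ ((2 * m * B) ^ 2) ^ m := by
      rw [← pow_mul, ← pow_mul, ← sq]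
      exact h7
    exact le_of_pow_le_pow_left₀ (by omega) (by positivity) h8
  have h4 : Tendsto (fun m : ℕ => (m : ℝ) ^ 2 / (2 : ℝ) ^ m) atTop (𝓝 0) :=
    tendsto_pow_const_div_const_pow_of_one_lt 2 (by norm_num)
  have h5 : ∀ᶠ m : ℕ in atTop, (m : ℝ) ^ 2 / (2 : ℝ) ^ m < 1 / (4 * B ^ 2) :=
    h4.eventually_lt_const (by positivity)
  obtain ⟨m, hm, hm1⟩ := (h5.and (eventually_ge_atTop 1)).exists
  have h6 := h3 m hm1
  rw [div_lt_div_iff₀ (by positivity) (by positivity)] at hm
  nlinarith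

lemma big_case (a c : ℕ → ℝ) (ha : ∀ n, 0 ≤ a n) (hc : ∀ n, c n ≤ a n)
    (h1 : ∀ n ≥ 1, a n - c n ≤ ∑ k ∈ Icc 1 (n / 2), a k * a (n - k))
    (h2 : ∀ m : ℕ, 1 ≤ m → (2 : ℝ) ^ (m ^ 2) / (2 * m).factorial ≤ a (2 * m)) :
    ∀ ε > 0, ∃ᶠ n in atTop, 1 - ε < c n / a n := by
  intro ε hε
  by_contra hcon
  rw [Filter.not_frequently] at hcon
  obtain ⟨n0, hn0⟩ := (hcon.and (eventually_ge_atTop 1)).exists_forall_of_atTop
  set δ := min ε 1 with hδdef
  have hδ : 0 < δ := lt_min hε one_pos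
  obtain ⟨B, hB1, hB⟩ := growth a ha δ hδ n0 (by
    intro n hn
    obtain ⟨h3, h4⟩ := hn0 n hn
    refine le_trans ?_ (h1 n h4)
    push Not at h3
    rcases (ha n).eq_or_lt with h5 | h5
    · have h6 := hc n
      rw [← h5] at h6 ⊢
      linarith
    · rw [div_le_iff₀ h5] at h3
      have : δ ≤ ε := min_le_left _ _
      nlinarith)
  exact growth_contra a δ B (min_le_right _ _) hB1 hB h2


lemma small_case (a c : ℕ → ℝ) (ha : ∀ K : ℝ, ∀ᶠ n in atTop, K ≤ a n)
    (h1 : ∀ᶠ n in atTop, a n - c n ≤ 1) :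
    ∀ ε > 0, ∃ᶠ n in atTop, 1 - ε < c n / a n := by
  intro ε hε
  refine Eventually.frequently ?_
  filter_upwards [h1, ha (2 / ε + 1)] with n h2 h3
  have h4 : 0 < 2 / ε := by positivity
  have h5 : 0 < a n := by linarith
  rw [lt_div_iff₀ h5]
  have h6 : 2 / ε * ε = 2 := by field_simp
  nlinarith

lemma not_limit (p : ℕ → ℝ) (h : ∀ ε > 0, ∃ᶠ n in atTop, 1 - ε < p n) : ¬ LimitProperty p := by
  rintro ⟨L, _, hL1, hL⟩
  have h2 := h ((1 - L) / 2) (by linarith)
  have h3 : ∀ᶠ n in atTop, p n < 1 - (1 - L) / 2 := hL.eventually_lt_const (by linarith)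
  obtain ⟨n, h4, h5⟩ := (h2.and_eventually h3).exists
  linarith

/-! ### Combinatorial part -/

lemma free_iso {W V V' : Type} {H : SimpleGraph W} {G : SimpleGraph V} {G' : SimpleGraph V'}
    (e : G ≃g G') : Free H G ↔ Free H G' := by
  constructor
  · intro h
    exact ⟨fun f => h.false (e.symm.toEmbedding.comp f)⟩
  · intro h
    exact ⟨fun f => h.false (e.toEmbedding.comp f)⟩

lemma connected_iso {V V' : Type} {G : SimpleGraph V} {G' : SimpleGraph V'}
    (e : G ≃g G') (h : G.Connected) : G'.Connected := e.connected_iff.1 h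

/-- The number of `H`-free graphs on the vertex set `V`. -/
noncomputable def N {W : Type} (H : SimpleGraph W) (V : Type) : ℕ :=
  Nat.card {G : SimpleGraph V // Free H G}

lemma N_congr {W : Type} (H : SimpleGraph W) {V V' : Type} (e : V ≃ V') : N H V = N H V' := by
  refine Nat.card_congr (Equiv.subtypeEquiv e.simpleGraph fun G => ?_)
  exact (free_iso (SimpleGraph.Iso.comap e.symm G)).symm

/-- No edges between `S` and its complement. -/
def NoCross {V : Type} (S : Set V) (G : SimpleGraph V) : Prop :=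
  ∀ x ∈ S, ∀ y ∉ S, ¬ G.Adj x y

lemma card_noCross {W : Type} (H : SimpleGraph W) {V : Type} [Finite V] (S : Set V) :
    Nat.card {G : SimpleGraph V // Free H G ∧ NoCross S G} ≤ N H S * N H (Sᶜ : Set V) := by
  rw [N, N, ← Nat.card_prod]
  refine Nat.card_le_card_of_injective
    (fun G : {G : SimpleGraph V // Free H G ∧ NoCross S G} =>
      ((⟨G.1.induce S, ⟨fun f => G.2.1.false ((SimpleGraph.Embedding.induce S).comp f)⟩⟩,
       ⟨G.1.induce Sᶜ, ⟨fun f => G.2.1.false ((SimpleGraph.Embedding.induce Sᶜ).comp f)⟩⟩) :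
       {G : SimpleGraph S // Free H G} × {G : SimpleGraph (Sᶜ : Set V) // Free H G})) ?_
  rintro ⟨G, hG1, hG2⟩ ⟨G', hG1', hG2'⟩ h
  simp only [Prod.mk.injEq] at h
  obtain ⟨h1, h2⟩ := h
  apply Subtype.ext
  ext x y
  by_cases hx : x ∈ S
  · by_cases hy : y ∈ S
    · have := congrArg (fun K : {G : SimpleGraph S // Free H G} => K.1.Adj ⟨x, hx⟩ ⟨y, hy⟩) h1
      simpa using this
    · exact iff_of_false (hG2 x hx y hy) (hG2' x hx y hy)
  · by_cases hy : y ∈ S
    · exact iff_of_false (fun h => hG2 y hy x hx h.symm) (fun h => hG2' y hy x hx h.symm)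
    · have := congrArg (fun K : {G : SimpleGraph (Sᶜ : Set V) // Free H G} => K.1.Adj ⟨x, hx⟩ ⟨y, hy⟩) h2
      simpa using this

/-- A graph on `n ≥ 1` vertices that is not connected has a cut with small side of size in
`[1, n/2]`. -/
lemma exists_cut {n : ℕ} (hn : 1 ≤ n) (G : SimpleGraph (Fin n)) (hG : ¬ G.Connected) :
    ∃ S : Finset (Fin n), 1 ≤ #S ∧ #S ≤ n / 2 ∧ NoCross (S : Set (Fin n)) G := by
  classical
  have : Nonempty (Fin n) := ⟨⟨0, hn⟩⟩
  have h1 : ¬ G.Preconnected := fun h => hG ⟨h⟩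
  unfold SimpleGraph.Preconnected at h1
  push Not at h1
  obtain ⟨u, v, huv⟩ := h1
  set T : Finset (Fin n) := Finset.univ.filter (fun x => G.Reachable u x) with hT
  have hcr : ∀ x ∈ T, ∀ y ∉ T, ¬ G.Adj x y := by
    intro x hx y hy hxy
    simp only [hT, Finset.mem_filter, Finset.mem_univ, true_and] at hx hy
    exact hy (hx.trans hxy.reachable)
  have huT : u ∈ T := by simp [hT]
  have hvT : v ∉ T := by simpa [hT] using huv
  rcases le_or_gt #T (n / 2) with h | h
  · exact ⟨T, Finset.card_pos.2 ⟨u, huT⟩, h, fun x hx y hy => hcr x (by simpa using hx) y (by simpa using hy)⟩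
  · refine ⟨Tᶜ, Finset.card_pos.2 ⟨v, by simpa using hvT⟩, ?_, ?_⟩
    · rw [Finset.card_compl, Fintype.card_fin]; omega
    · intro x hx y hy hxy
      have hx' : x ∉ T := by simpa using hx
      have hy' : y ∈ T := by simpa using hy
      exact hcr y hy' x hx' hxy.symm


lemma sum_card_le {n : ℕ} (g : ℕ → ℕ) :
    ∑ S ∈ (Finset.univ : Finset (Finset (Fin n))).filter (fun S => 1 ≤ #S ∧ #S ≤ n / 2), g #S =
      ∑ k ∈ Icc 1 (n / 2), n.choose k * g k := by
  classical
  rw [Finset.sum_filter]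
  have h1 := Finset.sum_powerset_apply_card (fun k => if 1 ≤ k ∧ k ≤ n / 2 then g k else 0)
    (x := (Finset.univ : Finset (Fin n)))
  rw [Finset.powerset_univ] at h1
  rw [h1, Finset.card_univ, Fintype.card_fin]
  have h2 : Icc 1 (n / 2) = (Finset.range (n + 1)).filter (fun k => 1 ≤ k ∧ k ≤ n / 2) := by
    ext k
    simp only [Finset.mem_Icc, Finset.mem_filter, Finset.mem_range]
    omega
  rw [h2, Finset.sum_filter]
  refine Finset.sum_congr rfl fun k _ => ?_
  split_ifs <;> simp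

/-- Union bound. -/
lemma card_le_sum {α ι : Type} [Finite α] (s : Finset ι) (P : α → Prop) (Q : ι → α → Prop)
    (h : ∀ a, P a → ∃ i ∈ s, Q i a) :
    Nat.card {a // P a} ≤ ∑ i ∈ s, Nat.card {a // Q i a} := by
  classical
  have : Fintype α := Fintype.ofFinite _
  have h1 : ∀ P : α → Prop, Nat.card {a : α // P a} = #(Finset.univ.filter P) := by
    intro P
    rw [Nat.card_eq_fintype_card, Fintype.card_subtype]
  simp only [h1]
  refine (Finset.card_le_card ?_).trans (Finset.card_biUnion_le (s := s)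
    (t := fun i => Finset.univ.filter (Q i)))
  intro a ha
  simp only [Finset.mem_filter, Finset.mem_univ, true_and, Finset.mem_biUnion] at ha ⊢
  exact h a ha

lemma card_image_le' {α β γ : Type} [Finite α] [Finite β] [Finite γ] (P : α → Prop) (Q : β → Prop)
    (F : α → β → γ) :
    Nat.card {c // ∃ a b, P a ∧ Q b ∧ F a b = c} ≤ Nat.card {a // P a} * Nat.card {b // Q b} := by
  rw [← Nat.card_prod]
  refine Nat.card_le_card_of_surjective
    (fun p : {a // P a} × {b // Q b} =>
      (⟨F p.1.1 p.2.1, p.1.1, p.2.1, p.1.2, p.2.2, rfl⟩ : {c // ∃ a b, P a ∧ Q b ∧ F a b = c})) ?_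
  rintro ⟨c, a, b, ha, hb, rfl⟩
  exact ⟨(⟨a, ha⟩, ⟨b, hb⟩), rfl⟩

lemma nonempty_equiv {n : ℕ} (S : Finset (Fin n)) :
    Nonempty (((S : Set (Fin n)) : Type) ≃ Fin #S) ∧
      Nonempty ((((S : Set (Fin n))ᶜ : Set (Fin n)) : Type) ≃ Fin (n - #S)) := by
  classical
  refine ⟨⟨S.equivFin⟩, ⟨Fintype.equivFinOfCardEq ?_⟩⟩
  rw [← Set.toFinset_card]
  simp [Finset.card_compl]

lemma labelled_disc {W : Type} (H : SimpleGraph W) {n : ℕ} (hn : 1 ≤ n) :
    Nat.card {G : SimpleGraph (Fin n) // Free H G ∧ ¬ G.Connected} ≤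
      ∑ k ∈ Icc 1 (n / 2), n.choose k * (N H (Fin k) * N H (Fin (n - k))) := by
  rw [← sum_card_le (fun k => N H (Fin k) * N H (Fin (n - k)))]
  refine (card_le_sum ((Finset.univ : Finset (Finset (Fin n))).filter
    (fun S => 1 ≤ #S ∧ #S ≤ n / 2)) _
    (fun (S : Finset (Fin n)) (G : SimpleGraph (Fin n)) => Free H G ∧ NoCross (S : Set (Fin n)) G)
    ?_).trans ?_
  · rintro G ⟨hG1, hG2⟩
    obtain ⟨S, hS1, hS2, hS3⟩ := exists_cut hn G hG2
    exact ⟨S, Finset.mem_filter.2 ⟨Finset.mem_univ _, hS1, hS2⟩, hG1, hS3⟩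
  · refine Finset.sum_le_sum fun S _ => ?_
    refine (card_noCross H (S : Set (Fin n))).trans (le_of_eq ?_)
    obtain ⟨⟨e1⟩, ⟨e2⟩⟩ := nonempty_equiv S
    rw [N_congr H e1, N_congr H e2]

/-! ### The unlabelled model -/

noncomputable def U {W : Type} (H : SimpleGraph W) (n : ℕ) : ℕ :=
  Nat.card {c : IsoClass n // ∃ G, cls G = c ∧ Free H G}

instance (n : ℕ) : Finite (IsoClass n) := Quotient.finite _

lemma cls_eq {n : ℕ} {G G' : SimpleGraph (Fin n)} : cls G = cls G' ↔ Nonempty (G ≃g G') :=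
  Quotient.eq (r := isoSetoid n)

/-- A representative. -/
noncomputable def rep {n : ℕ} (c : IsoClass n) : SimpleGraph (Fin n) := Quotient.out c

lemma cls_rep {n : ℕ} (c : IsoClass n) : cls (rep c) = c := Quotient.out_eq c

lemma rep_iso {n : ℕ} (G : SimpleGraph (Fin n)) : Nonempty (rep (cls G) ≃g G) :=
  cls_eq.1 (cls_rep _)

/-- Transport of a graph along a bijection. -/
def tr {V V' : Type} (e : V ≃ V') (G : SimpleGraph V) : SimpleGraph V' := G.comap e.symm

def trIso {V V' : Type} (e : V ≃ V') (G : SimpleGraph V) : G ≃g tr e G :=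
  (SimpleGraph.Iso.comap e.symm G).symm

/-- Disjoint union at the level of classes. -/
noncomputable def join (n k : ℕ) (c : IsoClass k) (c' : IsoClass (n - k)) : IsoClass n :=
  if h : k ≤ n then
    cls (tr (finSumFinEquiv.trans (finCongr (by omega : k + (n - k) = n))) (rep c ⊕g rep c'))
  else cls ⊥

lemma split_iso {V : Type} (G : SimpleGraph V) (S : Set V) (hS : NoCross S G) :
    Nonempty ((G.induce S ⊕g G.induce Sᶜ) ≃g G) := by
  classical
  refine ⟨⟨Equiv.Set.sumCompl S, ?_⟩⟩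
  intro x y
  rcases x with ⟨x, hx⟩ | ⟨x, hx⟩ <;> rcases y with ⟨y, hy⟩ | ⟨y, hy⟩
  · exact Iff.rfl
  · exact iff_of_false (hS x hx y hy) (by simp)
  · exact iff_of_false (fun h => hS y hy x hx h.symm) (by simp)
  · exact Iff.rfl

lemma unlabelled_disc {W : Type} (H : SimpleGraph W) {n : ℕ} (hn : 1 ≤ n) :
    Nat.card {c : IsoClass n // ∃ G, cls G = c ∧ Free H G ∧ ¬ G.Connected} ≤
      ∑ k ∈ Icc 1 (n / 2), U H k * U H (n - k) := by
  refine (card_le_sum (Icc 1 (n / 2)) _ (fun (k : ℕ) (c : IsoClass n) =>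
    ∃ (a : IsoClass k) (b : IsoClass (n - k)), (∃ G, cls G = a ∧ Free H G) ∧
      (∃ G, cls G = b ∧ Free H G) ∧ join n k a b = c) ?_).trans ?_
  · rintro c ⟨G, rfl, hG1, hG2⟩
    obtain ⟨S, hS1, hS2, hS3⟩ := exists_cut hn G hG2
    obtain ⟨⟨e1⟩, ⟨e2⟩⟩ := nonempty_equiv S
    obtain ⟨i0⟩ := split_iso G _ hS3
    have f1 : Free H (G.induce (S : Set (Fin n))) :=
      ⟨fun f => hG1.false ((SimpleGraph.Embedding.induce _).comp f)⟩
    have f2 : Free H (G.induce ((S : Set (Fin n))ᶜ)) :=
      ⟨fun f => hG1.false ((SimpleGraph.Embedding.induce _).comp f)⟩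
    generalize G.induce (S : Set (Fin n)) = G1 at *
    generalize G.induce ((S : Set (Fin n))ᶜ) = G2 at *
    obtain ⟨j1⟩ := rep_iso (tr e1 G1)
    obtain ⟨j2⟩ := rep_iso (tr e2 G2)
    refine ⟨#S, Finset.mem_Icc.2 ⟨hS1, hS2⟩, cls (tr e1 G1), cls (tr e2 G2),
      ⟨_, rfl, (free_iso (trIso e1 G1)).1 f1⟩, ⟨_, rfl, (free_iso (trIso e2 G2)).1 f2⟩, ?_⟩
    rw [join, dif_pos (by omega : #S ≤ n), cls_eq]
    have k1 : rep (cls (tr e1 G1)) ≃g G1 := (trIso e1 G1).symm.comp j1
    have k2 : rep (cls (tr e2 G2)) ≃g G2 := (trIso e2 G2).symm.comp j2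
    exact ⟨(i0.comp (k1.sumCongr k2)).comp (trIso _ _).symm⟩
  · exact Finset.sum_le_sum fun k _ => card_image_le' _ _ _

lemma labelled_le {W : Type} (H : SimpleGraph W) (n : ℕ) :
    N H (Fin n) ≤ n.factorial * U H n := by
  have h0 : Nat.card (Equiv.Perm (Fin n)) = n.factorial := by
    rw [Nat.card_eq_fintype_card, Fintype.card_perm, Fintype.card_fin]
  rw [N, U, ← h0, ← Nat.card_prod]
  refine Nat.card_le_card_of_surjective
    (fun p : Equiv.Perm (Fin n) × {c : IsoClass n // ∃ G, cls G = c ∧ Free H G} =>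
      (⟨tr p.1 (rep p.2.1), by
        obtain ⟨σ, c, G, rfl, hG⟩ := p
        obtain ⟨j⟩ := rep_iso G
        exact (free_iso (j.symm.trans (trIso σ _))).1 hG⟩ :
        {G : SimpleGraph (Fin n) // Free H G})) ?_
  rintro ⟨G, hG⟩
  obtain ⟨j⟩ := rep_iso G
  refine ⟨(j.toEquiv, ⟨cls G, G, rfl, hG⟩), ?_⟩
  apply Subtype.ext
  ext x y
  exact j.symm.map_adj_iff

/-! ### Large classes -/

/-- A graph on `Fin m ⊕ Fin m`: the left side is a clique if `α`, otherwise independent, the same
for the right side and `β`; the edges between the sides are given by `R`. -/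
def two (m : ℕ) (α β : Prop) (R : Fin m → Fin m → Bool) : SimpleGraph (Fin m ⊕ Fin m) where
  Adj x y := match x, y with
    | .inl i, .inl j => α ∧ i ≠ j
    | .inr i, .inr j => β ∧ i ≠ j
    | .inl i, .inr j => R i j = true
    | .inr i, .inl j => R j i = true
  symm := ⟨by
    rintro (x | x) (y | y) h
    · exact ⟨h.1, h.2.symm⟩
    · exact h
    · exact h
    · exact ⟨h.1, h.2.symm⟩⟩
  loopless := ⟨by
    rintro (x | x) h
    · exact h.2 rfl
    · exact h.2 rfl⟩

lemma pow_le_N {W : Type} (H : SimpleGraph W) (α β : Prop)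
    (h : ∀ m R, Free H (two m α β R)) (m : ℕ) : 2 ^ (m ^ 2) ≤ N H (Fin (2 * m)) := by
  have e : Fin m ⊕ Fin m ≃ Fin (2 * m) := finSumFinEquiv.trans (finCongr (by omega))
  rw [← N_congr H e, N]
  have h0 : Nat.card (Fin m → Fin m → Bool) = 2 ^ (m ^ 2) := by
    simp [Nat.card_eq_fintype_card, sq, pow_mul]
  rw [← h0]
  refine Nat.card_le_card_of_injective
    (fun R => (⟨two m α β R, h m R⟩ : {G : SimpleGraph (Fin m ⊕ Fin m) // Free H G})) ?_
  intro R R' hR
  have hR' : two m α β R = two m α β R' := congrArg Subtype.val hR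
  funext i j
  have h1 : (two m α β R).Adj (.inl i) (.inr j) ↔ (two m α β R').Adj (.inl i) (.inr j) := by
    rw [hR']
  have h2 : (R i j = true) ↔ (R' i j = true) := h1
  exact Bool.eq_iff_iff.2 h2

lemma free_cobip {W : Type} (H : SimpleGraph W) (a b c : W) (hab : a ≠ b) (hac : a ≠ c)
    (hbc : b ≠ c) (h1 : ¬ H.Adj a b) (h2 : ¬ H.Adj a c) (h3 : ¬ H.Adj b c) (m : ℕ)
    (R : Fin m → Fin m → Bool) : Free H (two m True True R) := by
  refine ⟨fun f => ?_⟩
  have g1 := mt f.map_adj_iff.1 h1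
  have g2 := mt f.map_adj_iff.1 h2
  have g3 := mt f.map_adj_iff.1 h3
  have k1 := f.injective.ne hab
  have k2 := f.injective.ne hac
  have k3 := f.injective.ne hbc
  revert g1 g2 g3 k1 k2 k3
  generalize f a = x
  generalize f b = y
  generalize f c = z
  rcases x with x | x <;> rcases y with y | y <;> rcases z with z | z <;>
    simp only [two, ne_eq, true_and, Sum.inl.injEq, Sum.inr.injEq, not_not] <;> tauto

lemma free_bip {W : Type} (H : SimpleGraph W) (a b c : W)
    (h1 : H.Adj a b) (h2 : H.Adj a c) (h3 : H.Adj b c) (m : ℕ)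
    (R : Fin m → Fin m → Bool) : Free H (two m False False R) := by
  refine ⟨fun f => ?_⟩
  have g1 := f.map_adj_iff.2 h1
  have g2 := f.map_adj_iff.2 h2
  have g3 := f.map_adj_iff.2 h3
  revert g1 g2 g3
  generalize f a = x
  generalize f b = y
  generalize f c = z
  rcases x with x | x <;> rcases y with y | y <;> rcases z with z | z <;>
    simp only [two, false_and] <;> tauto

lemma free_split {W : Type} (H : SimpleGraph W) (a b c d : W) (hac : a ≠ c) (had : a ≠ d)
    (hbc : b ≠ c) (hbd : b ≠ d) (h1 : H.Adj a b) (h2 : H.Adj c d) (h3 : ¬ H.Adj a c)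
    (h4 : ¬ H.Adj a d) (h5 : ¬ H.Adj b c) (h6 : ¬ H.Adj b d) (m : ℕ)
    (R : Fin m → Fin m → Bool) : Free H (two m True False R) := by
  refine ⟨fun f => ?_⟩
  have g1 := f.map_adj_iff.2 h1
  have g2 := f.map_adj_iff.2 h2
  have g3 := mt f.map_adj_iff.1 h3
  have g4 := mt f.map_adj_iff.1 h4
  have g5 := mt f.map_adj_iff.1 h5
  have g6 := mt f.map_adj_iff.1 h6
  have k1 := f.injective.ne hac
  have k2 := f.injective.ne had
  have k3 := f.injective.ne hbc
  have k4 := f.injective.ne hbd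
  revert g1 g2 g3 g4 g5 g6 k1 k2 k3 k4
  generalize f a = x
  generalize f b = y
  generalize f c = z
  generalize f d = w
  rcases x with x | x <;> rcases y with y | y <;> rcases z with z | z <;> rcases w with w | w <;>
    simp only [two, false_and, ne_eq, true_and, Sum.inl.injEq, Sum.inr.injEq, not_not] <;> tauto


/-! ### Small classes -/

lemma embed {W V : Type} (H : SimpleGraph W) (u v : W) (huv : u ≠ v) (h1 : ∀ w, ¬ H.Adj u w)
    (h2 : ∀ w w', w ≠ u → w' ≠ u → w ≠ w' → H.Adj w w')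
    (h3 : ∀ a b c, H.Adj a b → H.Adj a c → ¬ H.Adj b c)
    (G : SimpleGraph V) (x y z : V) (hxy : G.Adj x y) (hzx : ¬ G.Adj z x) (hzy : ¬ G.Adj z y)
    (hzx' : z ≠ x) (hzy' : z ≠ y) : ¬ Free H G := by
  classical
  have h4 : ∀ w w', w ≠ u → w ≠ v → w' ≠ u → w' ≠ v → w = w' := by
    intro w w' a1 a2 a3 a4
    by_contra hne
    exact h3 v w w' (h2 v w huv.symm a1 (Ne.symm a2)) (h2 v w' huv.symm a3 (Ne.symm a4))
      (h2 w w' a1 a3 hne)
  have hxy' : x ≠ y := hxy.ne
  let φ : W → V := fun w => if w = u then z else if w = v then x else y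
  have hφ : ∀ w, φ w = if w = u then z else if w = v then x else y := fun _ => rfl
  intro hF
  refine hF.false ⟨⟨φ, ?_⟩, ?_⟩
  · intro w w' hww
    rw [hφ, hφ] at hww
    by_contra hne
    split_ifs at hww <;> first
      | grind
      | exact hne (h4 w w' (by assumption) (by assumption) (by assumption) (by assumption))
  · intro w w'
    change G.Adj (φ w) (φ w') ↔ H.Adj w w'
    rw [hφ, hφ]
    by_cases a0 : w = w'
    · subst a0
      exact iff_of_false (SimpleGraph.irrefl _) (SimpleGraph.irrefl _)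
    by_cases a1 : w = u
    · rw [if_pos a1, a1]
      refine iff_of_false ?_ (h1 w')
      rw [if_neg (by rintro rfl; exact a0 a1)]
      split_ifs
      · exact hzx
      · exact hzy
    · by_cases a2 : w' = u
      · rw [if_neg a1, if_pos a2, a2]
        refine iff_of_false ?_ (fun h => h1 w h.symm)
        split_ifs
        · exact fun h => hzx h.symm
        · exact fun h => hzy h.symm
      · rw [if_neg a1, if_neg a2]
        refine iff_of_true ?_ (h2 w w' a1 a2 a0)
        by_cases a3 : w = v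
        · rw [if_pos a3, if_neg (by rintro rfl; exact a0 a3)]
          exact hxy
        · by_cases a4 : w' = v
          · rw [if_neg a3, if_pos a4]
            exact hxy.symm
          · exact absurd (h4 w w' a1 a3 a2 a4) a0

/-- `K_j` removed from a complete graph. -/
def mult (n j : ℕ) : SimpleGraph (Fin n) where
  Adj x y := x ≠ y ∧ ¬ (x.1 < j ∧ y.1 < j)
  symm := ⟨fun _ _ h => ⟨h.1.symm, fun h' => h.2 ⟨h'.2, h'.1⟩⟩⟩
  loopless := ⟨fun _ h => h.1 rfl⟩

lemma mult_free {W : Type} (H : SimpleGraph W) (a b w : W) (hab : H.Adj a b) (h1 : ¬ H.Adj w a)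
    (h2 : ¬ H.Adj w b) (h3 : w ≠ a) (h4 : w ≠ b) (n j : ℕ) : Free H (mult n j) := by
  refine ⟨fun f => ?_⟩
  have g1 := f.map_adj_iff.2 hab
  have g2 := mt f.map_adj_iff.1 h1
  have g3 := mt f.map_adj_iff.1 h2
  have k1 := f.injective.ne h3
  have k2 := f.injective.ne h4
  simp only [mult] at g1 g2 g3
  tauto

lemma mult_inj {n j j' : ℕ} (hj : 2 ≤ j) (hjn : j ≤ n) (hj' : 2 ≤ j') (hjn' : j' ≤ n)
    (h : cls (mult n j) = cls (mult n j')) : j = j' := by
  have key : ∀ i, 2 ≤ i → i ≤ n →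
      {x : Fin n | ∀ y, y ≠ x → (mult n i).Adj x y} = {x : Fin n | i ≤ x.1} := by
    intro i hi hin
    ext x
    simp only [Set.mem_ofPred_eq]
    constructor
    · intro hx
      by_contra hlt
      push Not at hlt
      by_cases h0 : x.1 = 0
      · have := hx ⟨1, by omega⟩ (by intro h; rw [← h] at h0; simp at h0)
        exact this.2 ⟨hlt, by simp; omega⟩
      · have := hx ⟨0, by omega⟩ (by intro h; rw [← h] at h0; simp at h0)
        exact this.2 ⟨hlt, by simp; omega⟩
    · intro hx y hy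
      exact ⟨hy.symm, fun h => by omega⟩
  obtain ⟨e⟩ := cls_eq.1 h
  have h1 : e '' {x : Fin n | ∀ y, y ≠ x → (mult n j).Adj x y} =
      {x : Fin n | ∀ y, y ≠ x → (mult n j').Adj x y} := by
    ext x
    simp only [Set.mem_image, Set.mem_ofPred_eq]
    constructor
    · rintro ⟨x, hx, rfl⟩ y hy
      have := hx (e.symm y) (by intro h; rw [← h] at hy; simp at hy)
      have := e.map_adj_iff.2 this
      simpa using this
    · intro hx
      refine ⟨e.symm x, fun y hy => ?_, by simp⟩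
      have := hx (e y) (by intro h; rw [← h] at hy; simp at hy)
      have := e.symm.map_adj_iff.2 this
      simpa using this
  rw [key j hj hjn, key j' hj' hjn'] at h1
  have h2 : ({x : Fin n | j ≤ x.1}).ncard = ({x : Fin n | j' ≤ x.1}).ncard := by
    rw [← h1, Set.ncard_image_of_injective _ e.injective]
  rcases lt_trichotomy j j' with hlt | heq | hgt
  · exfalso
    have : ({x : Fin n | j' ≤ x.1}).ncard < ({x : Fin n | j ≤ x.1}).ncard := by
      refine Set.ncard_lt_ncard ?_
      refine ⟨fun x hx => le_trans hlt.le hx, fun hss => ?_⟩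
      have := hss (a := ⟨j, by omega⟩) (by simp)
      simp only [Set.mem_ofPred_eq] at this
      omega
    omega
  · exact heq
  · exfalso
    have : ({x : Fin n | j ≤ x.1}).ncard < ({x : Fin n | j' ≤ x.1}).ncard := by
      refine Set.ncard_lt_ncard ?_
      refine ⟨fun x hx => le_trans hgt.le hx, fun hss => ?_⟩
      have := hss (a := ⟨j', by omega⟩) (by simp)
      simp only [Set.mem_ofPred_eq] at this
      omega
    omega

/-- The counts of connected members. -/
noncomputable def NC {W : Type} (H : SimpleGraph W) (n : ℕ) : ℕ :=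
  Nat.card {G : SimpleGraph (Fin n) // Free H G ∧ G.Connected}

noncomputable def UC {W : Type} (H : SimpleGraph W) (n : ℕ) : ℕ :=
  Nat.card {c : IsoClass n // ∃ G, cls G = c ∧ Free H G ∧ G.Connected}

lemma card_mono' {α : Type} [Finite α] (P Q : α → Prop) (h : ∀ a, P a → Q a) :
    Nat.card {a // P a} ≤ Nat.card {a // Q a} :=
  Nat.card_le_card_of_injective (fun a : {a // P a} => (⟨a.1, h _ a.2⟩ : {a // Q a}))
    (fun _ _ hab => Subtype.ext (congrArg (fun x : {a // Q a} => x.1) hab))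

lemma NC_le {W : Type} (H : SimpleGraph W) (n : ℕ) : NC H n ≤ N H (Fin n) :=
  card_mono' _ _ fun _ h => h.1

lemma UC_le {W : Type} (H : SimpleGraph W) (n : ℕ) : UC H n ≤ U H n :=
  card_mono' _ _ fun _ ⟨G, h1, h2, _⟩ => ⟨G, h1, h2⟩

lemma card_or {α : Type} [Finite α] (P Q R : α → Prop) (h : ∀ a, P a → Q a ∨ R a) :
    Nat.card {a // P a} ≤ Nat.card {a // Q a} + Nat.card {a // R a} := by
  have := card_le_sum (Finset.univ : Finset Bool) P (fun b => if b then Q else R) (by
    intro a ha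
    rcases h a ha with h | h
    · exact ⟨true, Finset.mem_univ _, by simpa using h⟩
    · exact ⟨false, Finset.mem_univ _, by simpa using h⟩)
  simpa using this

lemma N_le {W : Type} (H : SimpleGraph W) (n : ℕ) : N H (Fin n) ≤ NC H n +
    Nat.card {G : SimpleGraph (Fin n) // Free H G ∧ ¬ G.Connected} :=
  card_or _ _ _ fun G hG => by tauto

lemma U_le {W : Type} (H : SimpleGraph W) (n : ℕ) : U H n ≤ UC H n +
    Nat.card {c : IsoClass n // ∃ G, cls G = c ∧ Free H G ∧ ¬ G.Connected} :=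
  card_or _ _ _ fun c ⟨G, h1, h2⟩ => by
    by_cases h3 : G.Connected
    · exact Or.inl ⟨G, h1, h2, h3⟩
    · exact Or.inr ⟨G, h1, h2, h3⟩

/-- The conclusion for one `H`. -/
def Concl {W : Type} (H : SimpleGraph W) : Prop :=
  (∀ ε > 0, ∃ᶠ n in atTop, 1 - ε < labelledProb H n) ∧
    (∀ ε > 0, ∃ᶠ n in atTop, 1 - ε < unlabelledProb H n)

lemma concl_big {W : Type} (H : SimpleGraph W) (α β : Prop)
    (h : ∀ m R, Free H (two m α β R)) : Concl H := by
  have hp := pow_le_N H α β h
  constructor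
  · have h1 := big_case (fun n => (N H (Fin n) : ℝ) / n.factorial)
      (fun n => (NC H n : ℝ) / n.factorial) (fun n => by positivity)
      (fun n => by
        have := NC_le H n
        gcongr) ?_ ?_
    · intro ε hε
      refine (h1 ε hε).mono fun n hn => ?_
      have h2 : ((NC H n : ℝ) / n.factorial) / ((N H (Fin n) : ℝ) / n.factorial) =
          labelledProb H n := by
        have h3 : (n.factorial : ℝ) ≠ 0 := by exact_mod_cast (Nat.factorial_pos n).ne'
        rw [div_div_div_cancel_right₀ h3]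
        rfl
      rwa [h2] at hn
    · intro n hn
      have h2 := N_le H n
      have h3 := labelled_disc H hn
      have h4 : (N H (Fin n) : ℝ) - NC H n ≤
          ∑ k ∈ Icc 1 (n / 2), (n.choose k : ℝ) * ((N H (Fin k) : ℝ) * N H (Fin (n - k))) := by
        have h5 : N H (Fin n) ≤ NC H n +
          ∑ k ∈ Icc 1 (n / 2), n.choose k * (N H (Fin k) * N H (Fin (n - k))) := by omega
        have h6 : (N H (Fin n) : ℝ) ≤ NC H n +
          ∑ k ∈ Icc 1 (n / 2), (n.choose k : ℝ) * ((N H (Fin k) : ℝ) * N H (Fin (n - k))) := by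
          exact_mod_cast h5
        linarith
      have h7 : (0 : ℝ) < n.factorial := by exact_mod_cast Nat.factorial_pos n
      rw [← sub_div, div_le_iff₀ h7]
      refine h4.trans (le_of_eq ?_)
      rw [Finset.sum_mul]
      refine Finset.sum_congr rfl fun k hk => ?_
      rw [Finset.mem_Icc] at hk
      have h8 : (n.choose k : ℝ) * (k.factorial * (n - k).factorial) = n.factorial := by
        rw [← mul_assoc]
        exact_mod_cast Nat.choose_mul_factorial_mul_factorial (show k ≤ n by omega)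
      have h9 : (k.factorial : ℝ) ≠ 0 := by exact_mod_cast (Nat.factorial_pos k).ne'
      have h10 : ((n - k).factorial : ℝ) ≠ 0 := by exact_mod_cast (Nat.factorial_pos _).ne'
      rw [← h8]
      field_simp
    · intro m _
      gcongr
      exact_mod_cast hp m
  · have h1 := big_case (fun n => (U H n : ℝ)) (fun n => (UC H n : ℝ)) (fun n => by positivity)
      (fun n => by exact_mod_cast UC_le H n) ?_ ?_
    · intro ε hε
      exact h1 ε hε
    · intro n hn
      have h2 := U_le H n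
      have h3 := unlabelled_disc H hn
      have h5 : U H n ≤ UC H n + ∑ k ∈ Icc 1 (n / 2), U H k * U H (n - k) := by omega
      have h6 : (U H n : ℝ) ≤ UC H n + ∑ k ∈ Icc 1 (n / 2), (U H k : ℝ) * U H (n - k) := by
        exact_mod_cast h5
      linarith
    · intro m _
      have h2 := labelled_le H (2 * m)
      have h3 := hp m
      have h7 : (0 : ℝ) < (2 * m).factorial := by exact_mod_cast Nat.factorial_pos _
      rw [div_le_iff₀ h7]
      have h4 : 2 ^ (m ^ 2) ≤ U H (2 * m) * (2 * m).factorial := by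
        rw [mul_comm]; exact h3.trans h2
      exact_mod_cast h4

lemma concl_small {W : Type} (H : SimpleGraph W)
    (h1 : ∀ n, 1 ≤ n → ∀ G : SimpleGraph (Fin n), Free H G → ¬ G.Connected → G = ⊥)
    (h2 : ∀ n j, Free H (mult n j)) : Concl H := by
  have hdisc : ∀ n, 1 ≤ n →
      Nat.card {G : SimpleGraph (Fin n) // Free H G ∧ ¬ G.Connected} ≤ 1 := by
    intro n hn
    refine (Nat.card_le_card_of_injective (fun _ => (0 : Fin 1)) ?_).trans (by simp)
    intro G G' _
    exact Subtype.ext ((h1 n hn _ G.2.1 G.2.2).trans (h1 n hn _ G'.2.1 G'.2.2).symm)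
  have hdisc' : ∀ n, 1 ≤ n →
      Nat.card {c : IsoClass n // ∃ G, cls G = c ∧ Free H G ∧ ¬ G.Connected} ≤ 1 := by
    intro n hn
    refine (Nat.card_le_card_of_injective (fun _ => (0 : Fin 1)) ?_).trans (by simp)
    rintro ⟨c, G, rfl, h3, h4⟩ ⟨c', G', rfl, h3', h4'⟩ _
    apply Subtype.ext
    simp only
    rw [h1 n hn _ h3 h4, h1 n hn _ h3' h4']
  have hU : ∀ n, n - 1 ≤ U H n := by
    intro n
    have h3 : Nat.card (Fin (n - 1)) = n - 1 := by simp
    rw [← h3, U]
    refine Nat.card_le_card_of_injective (fun j : Fin (n - 1) =>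
      (⟨cls (mult n (j.1 + 2)), _, rfl, h2 n _⟩ :
        {c : IsoClass n // ∃ G, cls G = c ∧ Free H G})) ?_
    intro j j' hj
    have h4 : cls (mult n (j.1 + 2)) = cls (mult n (j'.1 + 2)) := congrArg Subtype.val hj
    have h5 := mult_inj (by omega) (by omega) (by omega) (by omega) h4
    exact Fin.ext (by omega)
  have hN : ∀ n, n - 1 ≤ N H (Fin n) := by
    intro n
    have h3 : Nat.card (Fin (n - 1)) = n - 1 := by simp
    rw [← h3, N]
    refine Nat.card_le_card_of_injective (fun j : Fin (n - 1) =>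
      (⟨mult n (j.1 + 2), h2 n _⟩ : {G : SimpleGraph (Fin n) // Free H G})) ?_
    intro j j' hj
    have h4 : mult n (j.1 + 2) = mult n (j'.1 + 2) := congrArg Subtype.val hj
    have h5 := mult_inj (by omega) (by omega) (by omega) (by omega) (congrArg cls h4)
    exact Fin.ext (by omega)
  have htend : ∀ g : ℕ → ℕ, (∀ n, n - 1 ≤ g n) → ∀ K : ℝ, ∀ᶠ n in atTop, K ≤ (g n : ℝ) := by
    intro g hg K
    filter_upwards [eventually_ge_atTop (⌈K⌉₊ + 1)] with n hn
    have h3 : ⌈K⌉₊ ≤ g n := (by omega : ⌈K⌉₊ ≤ n - 1).trans (hg n)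
    exact (Nat.le_ceil K).trans (by exact_mod_cast h3)
  constructor
  · exact small_case (fun n => (N H (Fin n) : ℝ)) (fun n => (NC H n : ℝ)) (htend _ hN) (by
      filter_upwards [eventually_ge_atTop 1] with n hn
      have h3 := N_le H n
      have h4 := hdisc n hn
      have h5 : N H (Fin n) ≤ NC H n + 1 := by omega
      have h6 : (N H (Fin n) : ℝ) ≤ NC H n + 1 := by exact_mod_cast h5
      linarith)
  · exact small_case (fun n => (U H n : ℝ)) (fun n => (UC H n : ℝ)) (htend _ hU) (by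
      filter_upwards [eventually_ge_atTop 1] with n hn
      have h3 := U_le H n
      have h4 := hdisc' n hn
      have h5 : U H n ≤ UC H n + 1 := by omega
      have h6 : (U H n : ℝ) ≤ UC H n + 1 := by exact_mod_cast h5
      linarith)


lemma not_preconnected_other {W : Type} (H : SimpleGraph W) (hH : ¬ H.Preconnected) (a : W) :
    ∃ w, ¬ H.Reachable a w := by
  by_contra hcon
  push Not at hcon
  exact hH fun x y => (hcon x).symm.trans (hcon y)

lemma concl_of_disconnected {W : Type} (H : SimpleGraph W) (hH : ¬ H.Preconnected) :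
    Concl H := by
  classical
  by_cases hA : ∃ a b c : W, a ≠ b ∧ a ≠ c ∧ b ≠ c ∧ ¬ H.Adj a b ∧ ¬ H.Adj a c ∧ ¬ H.Adj b c
  · obtain ⟨a, b, c, h1, h2, h3, h4, h5, h6⟩ := hA
    exact concl_big H True True (free_cobip H a b c h1 h2 h3 h4 h5 h6)
  by_cases hB : ∃ a b c : W, H.Adj a b ∧ H.Adj a c ∧ H.Adj b c
  · obtain ⟨a, b, c, h1, h2, h3⟩ := hB
    exact concl_big H False False (free_bip H a b c h1 h2 h3)
  by_cases hC : ∃ a b c d : W, a ≠ c ∧ a ≠ d ∧ b ≠ c ∧ b ≠ d ∧ H.Adj a b ∧ H.Adj c d ∧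
      ¬ H.Adj a c ∧ ¬ H.Adj a d ∧ ¬ H.Adj b c ∧ ¬ H.Adj b d
  · obtain ⟨a, b, c, d, h1, h2, h3, h4, h5, h6, h7, h8, h9, h10⟩ := hC
    exact concl_big H True False (free_split H a b c d h1 h2 h3 h4 h5 h6 h7 h8 h9 h10)
  -- the remaining graphs
  have hA' : ∀ a b c : W, a ≠ b → a ≠ c → b ≠ c → ¬ H.Adj a b → ¬ H.Adj a c → H.Adj b c := by
    intro a b c h1 h2 h3 h4 h5
    by_contra h6
    exact hA ⟨a, b, c, h1, h2, h3, h4, h5, h6⟩
  have hB' : ∀ a b c, H.Adj a b → H.Adj a c → ¬ H.Adj b c :=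
    fun a b c h1 h2 h3 => hB ⟨a, b, c, h1, h2, h3⟩
  have hH' := hH
  unfold SimpleGraph.Preconnected at hH'
  push Not at hH'
  obtain ⟨u, v, huv⟩ := hH'
  have huv' : u ≠ v := by rintro rfl; exact huv (SimpleGraph.Reachable.refl _)
  have na : ∀ x y, H.Reachable u x → ¬ H.Reachable u y → ¬ H.Adj x y ∧ x ≠ y := by
    intro x y hx hy
    exact ⟨fun h => hy (hx.trans h.reachable), by rintro rfl; exact hy hx⟩
  have ha : ∀ x y, H.Reachable u x → H.Reachable u y → x ≠ y → H.Adj x y := by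
    intro x y hx hy hxy
    exact hA' v x y (na x v hx huv).2.symm (na y v hy huv).2.symm hxy
      (fun h => (na x v hx huv).1 h.symm) (fun h => (na y v hy huv).1 h.symm)
  have hb : ∀ x y, ¬ H.Reachable u x → ¬ H.Reachable u y → x ≠ y → H.Adj x y := by
    intro x y hx hy hxy
    have hu : H.Reachable u u := SimpleGraph.Reachable.refl _
    exact hA' u x y (na u x hu hx).2 (na u y hu hy).2 hxy (na u x hu hx).1 (na u y hu hy).1
  -- one of the two sides is a single vertex
  have hside : (∀ w, H.Reachable u w → w = u) ∨ (∀ w, ¬ H.Reachable u w → w = v) := by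
    by_contra hcon
    push Not at hcon
    obtain ⟨⟨a, ha1, ha2⟩, ⟨b, hb1, hb2⟩⟩ := hcon
    have hu : H.Reachable u u := SimpleGraph.Reachable.refl _
    exact hC ⟨u, a, v, b, (na u v hu huv).2, (na u b hu hb1).2, (na a v ha1 huv).2,
      (na a b ha1 hb1).2, ha u a hu ha1 ha2.symm, hb v b huv hb1 hb2.symm, (na u v hu huv).1,
      (na u b hu hb1).1, (na a v ha1 huv).1, (na a b ha1 hb1).1⟩
  -- an `H`-free graph with an edge `xy` and a vertex `z` not adjacent to `x`, `y` is impossible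
  have hemb : ∀ (n : ℕ) (G : SimpleGraph (Fin n)) (x y z : Fin n), G.Adj x y → ¬ G.Adj z x →
      ¬ G.Adj z y → z ≠ x → z ≠ y → ¬ Free H G := by
    intro n G x y z h1 h2 h3 h4 h5
    rcases hside with hs | hs
    · refine embed H u v huv' ?_ ?_ hB' G x y z h1 h2 h3 h4 h5
      · intro w hw
        have := hs w hw.reachable
        exact hw.ne this.symm
      · intro w w' hw hw' hne
        exact hb w w' (fun h => hw (hs w h)) (fun h => hw' (hs w' h)) hne
    · refine embed H v u huv'.symm ?_ ?_ hB' G x y z h1 h2 h3 h4 h5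
      · intro w hw
        by_cases hw' : H.Reachable u w
        · exact (na w v hw' huv).1 hw.symm
        · exact hw.ne (hs w hw').symm
      · intro w w' hw hw' hne
        exact ha w w' (not_not.1 (fun h => hw (hs w h))) (not_not.1 (fun h => hw' (hs w' h))) hne
  have hbot : ∀ n, 1 ≤ n → ∀ G : SimpleGraph (Fin n), Free H G → ¬ G.Connected → G = ⊥ := by
    intro n hn G hF hG
    by_contra hne
    have : Nonempty (Fin n) := ⟨⟨0, hn⟩⟩
    have hG' : ¬ G.Preconnected := fun h => hG ⟨h⟩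
    obtain ⟨x, y, hxy⟩ : ∃ x y, G.Adj x y := by
      by_contra hcon
      push Not at hcon
      exact hne (by ext x y; simpa using hcon x y)
    obtain ⟨z, hz⟩ := not_preconnected_other G hG' x
    refine hemb n G x y z hxy (fun h => hz h.symm.reachable)
      (fun h => hz (hxy.reachable.trans h.symm.reachable)) ?_ ?_ hF
    · rintro rfl; exact hz (SimpleGraph.Reachable.refl _)
    · rintro rfl; exact hz hxy.reachable
  by_cases hE : ∃ a b, H.Adj a b
  · obtain ⟨a, b, hab⟩ := hE
    obtain ⟨w, hw⟩ := not_preconnected_other H hH a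
    refine concl_small H hbot (mult_free H a b w hab (fun h => hw h.symm.reachable)
      (fun h => hw (hab.reachable.trans h.symm.reachable)) ?_ ?_)
    · rintro rfl; exact hw (SimpleGraph.Reachable.refl _)
    · rintro rfl; exact hw hab.reachable
  · -- `H` is two isolated vertices
    push Not at hE
    have hW : ∀ w, w = u ∨ w = v := by
      intro w
      by_contra hcon
      push Not at hcon
      exact hE v w (hA' u v w huv' hcon.1.symm hcon.2.symm (hE _ _) (hE _ _))
    have hconn : ∀ n, 1 ≤ n → ∀ G : SimpleGraph (Fin n), Free H G → G.Connected := by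
      intro n hn G hF
      by_contra hG
      have : Nonempty (Fin n) := ⟨⟨0, hn⟩⟩
      have hG' : ¬ G.Preconnected := fun h => hG ⟨h⟩
      unfold SimpleGraph.Preconnected at hG'
      push Not at hG'
      obtain ⟨x, y, hxy⟩ := hG'
      have hne : x ≠ y := by rintro rfl; exact hxy (SimpleGraph.Reachable.refl _)
      let φ : W → Fin n := fun w => if w = u then x else y
      have hφ : ∀ w, φ w = if w = u then x else y := fun _ => rfl
      refine hF.false ⟨⟨φ, ?_⟩, ?_⟩
      · intro w w' hww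
        rw [hφ, hφ] at hww
        rcases hW w with h1 | h1 <;> rcases hW w' with h2 | h2 <;> grind
      · intro w w'
        change G.Adj (φ w) (φ w') ↔ H.Adj w w'
        refine iff_of_false ?_ (hE _ _)
        rw [hφ, hφ]
        split_ifs
        · exact SimpleGraph.irrefl _
        · exact fun h => hxy h.reachable
        · exact fun h => hxy h.symm.reachable
        · exact SimpleGraph.irrefl _
    have htop : ∀ n, Free H (⊤ : SimpleGraph (Fin n)) := by
      intro n
      refine ⟨fun f => ?_⟩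
      have := mt f.map_adj_iff.1 (hE u v)
      exact this (by simpa using huv')
    constructor
    · intro ε hε
      refine Eventually.frequently ?_
      filter_upwards [eventually_ge_atTop 1] with n hn
      have h1 : NC H n = N H (Fin n) := by
        refine le_antisymm (NC_le H n) (card_mono' _ _ fun G hG => ⟨hG, hconn n hn G hG⟩)
      have h2 : 0 < N H (Fin n) := by
        have : Nonempty {G : SimpleGraph (Fin n) // Free H G} := ⟨⟨⊤, htop n⟩⟩
        exact Nat.card_pos
      have h3 : labelledProb H n = 1 := by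
        change (NC H n : ℝ) / (N H (Fin n) : ℝ) = 1
        rw [h1, div_self (by exact_mod_cast h2.ne')]
      rw [h3]; linarith
    · intro ε hε
      refine Eventually.frequently ?_
      filter_upwards [eventually_ge_atTop 1] with n hn
      have h1 : UC H n = U H n := by
        refine le_antisymm (UC_le H n) (card_mono' _ _ fun c ⟨G, h4, h5⟩ =>
          ⟨G, h4, h5, hconn n hn G h5⟩)
      have h2 : 0 < U H n := by
        have : Nonempty {c : IsoClass n // ∃ G, cls G = c ∧ Free H G} :=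
          ⟨⟨cls ⊤, ⊤, rfl, htop n⟩⟩
        exact Nat.card_pos
      have h3 : unlabelledProb H n = 1 := by
        change (UC H n : ℝ) / (U H n : ℝ) = 1
        rw [h1, div_self (by exact_mod_cast h2.ne')]
      rw [h3]; linarith

/-- **Theorem.** No disconnected graph `H` has the limit property, neither in the labelled nor in
the unlabelled model; in fact the upper limit of the probability of connectedness is `1` for every
disconnected `H`, in both models. -/
theorem result {W : Type} [Finite W] (H : SimpleGraph W) (hH : ¬ H.Preconnected) :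
    (¬ LimitProperty (labelledProb H) ∧ ¬ LimitProperty (unlabelledProb H)) ∧
      (∀ ε > 0, ∃ᶠ n in atTop, 1 - ε < labelledProb H n) ∧
      (∀ ε > 0, ∃ᶠ n in atTop, 1 - ε < unlabelledProb H n) := by
  have h := concl_of_disconnected H hH
  exact ⟨⟨not_limit _ h.1, not_limit _ h.2⟩, h.1, h.2⟩

end Pool.Agent.Results.MP_66c21b_co.NoDisconnected
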